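import Pool.Agent.CZT.C2

/-!
# MP_0e1fc4_al: over every field of characteristic 3 the centre of the generic `C₃ × C₃`-crossed product is rational

`H = C₃ × C₃` is the set `P9` of the nine points, on which the group `H` acts by translation. `Ω` is the field of rational functions
over `F` in the variables `x_i`, `y_ij` (`i, j ∈ H`) and `act g` the automorphism `x_i ↦ x_{g+i}`, `y_ij ↦ y_{g+i,g+j}` (`IsModel`; such a field
exists, and it is unique up to isomorphism). `FM F x y ⊆ Ω` is Formanek's description of `F(M)`: the field generated by the Laurent monomials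
`∏ x_i ^ a_i * ∏ y_ij ^ b_ij` with `∑_j b_ij = ∑_j b_ji` for all `i` (the invariants of the diagonal torus, which acts by
`y_ij ↦ t_i y_ij t_j⁻¹`), and its field of elements fixed by all `act g` is `F(M)^H = Z_H(F, 9)`.

THEOREM. If `F` has characteristic 3 (any field, not necessarily perfect or algebraically closed), then `Z_H(F, 9)` is purely transcendental
over `F` of degree 82. So (i), (ii) and (iii) of Q1 hold for all these `F`.

PROOF. (0) `F(M)` is generated by nine elements `u_ij` with product `1`, permuted by `H = ⟨σ, τ⟩`, two Artin-Schreier elements `th` (`σ th = th + 1`,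
`τ th = th`), `ze` (`τ ze = ze + 1`, `σ ze = ze`) and 72 invariant elements (Speiser). Let `Z` be the field of invariants and `R = F(M)`.
(1) With `w = ∏_i u_i0` (fixed by `τ`, of norm 1 for `σ`) there are `θ` (`σ θ = θ + 1`) and `r ∈ Z` with
`w = (θ + 1 - r) θ / ((θ + 1)(θ - r))` and two derivations `P`, `Q` of `R` with `P w = w`, `Q w = - Θ w`, `Θ = (θ - 1)³`; put `j = 1/r`,
`c = θ³ - θ`, `n = j³ c/(j² - 1) - 1`: `P j = j² - 1`, `P n = 0`, `Q n = n² - 1`.
(2) Let `z, x, y` be fixed by `τ` with `ze = z + x u + y u τ(u)`. Then `Ξ = ze³ - ze + z = z³ + x³ w + y³ w²`: the Artin-Schreier analogue of the norm from the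
purely inseparable extension given by the cube root of `w`. There is a nonzero `H ∈ Z³(j, n)` with `P H = Tr(Ξ) H`, `Q H = - Tr(Θ Ξ) H`, and `Z` is generated
over `F` by 74 explicit elements, `j`, `n` and the ratios of the coordinates of `H` over `Z³`; the only relations come from the condition
that `QH/H - P²(QH/H)` is a cube of an element of `Z`.
(3) Write `H = A (n - S₁)/(n - S₂)` with `A, S₁, S₂ ∈ Z³(j)`. The condition becomes two equations, which are simple in the coordinates `la = (n - S₂)/(S₁ - S₂)`,
`d = S₁ - S₂`, `M = la³ S₁ + (1 - la)³ S₂`; one can be solved for a variable. (4) Every nonzero element of `Z³(j)` is, up to cubes,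
of the form `(j - a³)/(j - b³)` (Möbius coordinates). In these coordinates the last equation becomes
`φ y³ + y² - 1 = sg pi (i (d₁ + d₂) - al² d₁ (al - d₂) - φ (sg (i - al³) d₁³ + pi i d₂³))`, `φ = (a³ - a)/j`, `i = j - ka³`,
which is linear in `S/(1 - S)`, `S = 1 - φ sg d₁²`, after the substitution `X = d₂/(S d₁)`, `Rr = 1 - φ pi d₂²`. So `Z` is generated by `74 + 8 = 82`
elements. Non-vanishing of the denominators follows from the transcendence degree.
-/

open CPZ.St in
/-- For every field `F` of characteristic 3 the centre `Z_H(F, 9) = F(M)^H` of the generic `C₃ × C₃`-crossed product is purely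
transcendental over `F`, of degree 82. -/
theorem Pool.Agent.Results.MP_0e1fc4_al.CharThree.result.{u} (F : Type u) [Field F] [CharP F 3] :
    (∃ (Ω : Type u) (_ : Field Ω) (_ : Algebra F Ω) (x : P9 → Ω) (y : P9 → P9 → Ω) (act : P9 → (Ω ≃ₐ[F] Ω)),
      IsModel F Ω x y act) ∧
    ∀ (Ω : Type u) [Field Ω] [Algebra F Ω] (x : P9 → Ω) (y : P9 → P9 → Ω) (act : P9 → (Ω ≃ₐ[F] Ω)),
      IsModel F Ω x y act → Rat F (FixIn (FM F x y) (Set.range act)) 82 :=
  ⟨⟨_, inferInstance, inferInstance, _, _, _, exists_model F⟩, fun _ _ _ x y act h => CZT.main x y act h⟩
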