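import Pool.Agent.CPZ.Mod

/-!
# MP_0e1fc4_al: the centre of the generic `C₃ × C₃`-crossed product is a double cover of a rational variety

`H = C₃ × C₃` is the set `P9` of the nine points, on which the group `H` acts by translation. `Ω` is the field of rational functions
over `F` in the variables `x_i`, `y_ij` (`i, j ∈ H`) and `act g` the automorphism `x_i ↦ x_{g+i}`, `y_ij ↦ y_{g+i,g+j}` (`IsModel`; such a field
exists, and it is unique up to isomorphism). `FM F x y ⊆ Ω` is Formanek's description of `F(M)`: the field generated by the Laurent monomials
`∏ x_i ^ a_i * ∏ y_ij ^ b_ij` with `∑_j b_ij = ∑_j b_ji` for all `i` (the invariants of the diagonal torus, which acts by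
`y_ij ↦ t_i y_ij t_j⁻¹`), and its field of elements fixed by all `act g` is `F(M)^H = Z_H(F, 9)`.

THEOREM. For every field `F` (every characteristic, no roots of unity) there is `E` with `E < Z_H < L`, where `L = F(M)^C`, `C` the subgroup
of order three generated by `(1, 0)`, such that `E` and `L` are purely transcendental of degree 82 over `F`, `[Z_H : E] = 2`,
`[L : Z_H] = 3`, and `L/E` is Galois with group `S₃` (`Z_H` is the fixed field of `A₃`).

So `Z_H` is the function field of a double cover of projective space (its degree of irrationality is at most 2), and it is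
unirational of degree 3: the double cover is the quotient of a rational variety by `A₃ ⊂ S₃`.

PROOF. (1) `F(M)` is generated by nine elements `u_ij` (`i, j ∈ ℤ/3`, the commutators of two edges of the generic crossed
product), with product `1`, permuted by `H`, three elements `m_j` permuted by `σ = (0, 1)` and fixed by `τ = (1, 0)`, and 71 invariant
elements (Speiser's lemma). (2) For every `i` let `φ_i(X) = v_i (X + l_i)/(X + k_i)` be the Möbius transformation with
`φ_i(m_j) = u_ij` for `j = 0, 1, 2`: `v_i, l_i, k_i` do not change when the `j` are permuted. With `M(X) = ∏_j (X + m_j)` and `e_i = ∏_j u_ij`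
one has `e_i M(k_i) = v_i³ M(l_i)` (`i = 0, 1, 2`): three linear equations for the three coefficients of `M`, which can be solved.
So the field of invariants of `S₃` (permuting the `j`) is generated by the `v_i, l_i, k_i, e_i` with `e_0 e_1 e_2 = 1` and the 71 elements,
and the field of invariants of `A₃` is its quadratic extension given by the discriminant of `M`. (3) `τ` permutes the triples `v, l, k, e`;
by Hilbert 90, Speiser's lemma and the rationality of `F(w_0, w_1, w_2)^{C₃}` in every characteristic its field of invariants is
purely transcendental.
-/

open CPZ.St in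
/-- For every field `F` the centre `Z_H(F, 9) = F(M)^H` of the generic `C₃ × C₃`-crossed product is a quadratic extension of a purely
transcendental extension `E` of `F` and has a cubic extension `L` which is purely transcendental over `F`; `L/E` is Galois
with group `S₃`. -/
theorem Pool.Agent.Results.MP_0e1fc4_al.DoubleCover.result.{u} (F : Type u) [Field F] :
    (∃ (Ω : Type u) (_ : Field Ω) (_ : Algebra F Ω) (x : P9 → Ω) (y : P9 → P9 → Ω) (act : P9 → (Ω ≃ₐ[F] Ω)),
      IsModel F Ω x y act) ∧
    ∀ (Ω : Type u) [Field Ω] [Algebra F Ω] (x : P9 → Ω) (y : P9 → P9 → Ω) (act : P9 → (Ω ≃ₐ[F] Ω)),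
      IsModel F Ω x y act →
        ∃ E : IntermediateField F Ω,
          Tower E (FixIn (FM F x y) (Set.range act)) (FixIn (FM F x y) {act (1, 0)}) 82 :=
  ⟨⟨_, inferInstance, inferInstance, _, _, _, exists_model F⟩, fun _ _ _ x y act h => main x y act h⟩
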